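import Pool.Agent.K4W.StmtsV

/-!
# K4W, row SHD: sum over `H`, truncation of `d`
-/

set_option autoImplicit false

namespace Pool.Agent.K4W.H95

open Real

theorem exp_beats (n : ℕ) : ∃ Z₀ : ℕ, 1 ≤ Z₀ ∧ ∀ Z : ℕ, Z₀ ≤ Z →
    16 * (Z : ℝ) ^ n ≤ Real.exp (Real.pi * (Z : ℝ) ^ 2) := by
  have h1 := (Real.tendsto_pow_mul_exp_neg_atTop_nhds_zero n).comp tendsto_natCast_atTop_atTop
  have h2 : ∀ᶠ Z : ℕ in Filter.atTop, (Z : ℝ) ^ n * Real.exp (-(Z : ℝ)) < 1 / 16 :=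
    h1.eventually (gt_mem_nhds (by norm_num))
  obtain ⟨Z₀, hZ₀⟩ := Filter.eventually_atTop.1 h2
  refine ⟨max Z₀ 1, le_max_right _ _, fun Z hZ => ?_⟩
  have h3 := hZ₀ Z (le_trans (le_max_left _ _) hZ)
  have hZ1 : (1 : ℝ) ≤ (Z : ℝ) := by exact_mod_cast le_trans (le_max_right _ _) hZ
  rw [Real.exp_neg, ← div_eq_mul_inv, div_lt_iff₀ (Real.exp_pos _)] at h3
  have h4 : Real.exp (Z : ℝ) ≤ Real.exp (Real.pi * (Z : ℝ) ^ 2) := by
    apply Real.exp_le_exp.2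
    have h5 : (1 : ℝ) ≤ Real.pi := by linarith [Real.pi_gt_three]
    have h6 : (Z : ℝ) ≤ (Z : ℝ) ^ 2 := by nlinarith
    nlinarith
  linarith

theorem kn_nonneg (N : ℕ) (x : ℝ) : 0 ≤ kn N x := by
  unfold kn
  exact inv_nonneg.2 (le_trans (abs_nonneg _) (le_max_right _ _))

theorem kn_le (N : ℕ) (hN : 1 ≤ N) (x : ℝ) : kn N x ≤ 8 * (N : ℝ) := by
  unfold kn
  have hN' : (0 : ℝ) < N := by exact_mod_cast hN
  have h1 : (0 : ℝ) < 1 / (8 * (N : ℝ)) := by positivity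
  calc (max (1 / (8 * (N : ℝ))) |x - round x|)⁻¹ ≤ (1 / (8 * (N : ℝ)))⁻¹ :=
        inv_anti₀ h1 (le_max_left _ _)
    _ = 8 * (N : ℝ) := by rw [one_div, inv_inv]

theorem mem_Hs (X : ℕ) (H : ℤ) : H ∈ Hs X ↔ |H| ≤ (X : ℤ) ∧ H ≠ 0 := by
  unfold Hs
  rw [Finset.mem_filter, Finset.mem_Icc, abs_le]

theorem card_Hs (X : ℕ) : (Hs X).card = 2 * X := by
  have h1 : Hs X = (Finset.Icc (-(X : ℤ)) (X : ℤ)).erase 0 := by
    ext H
    rw [mem_Hs, Finset.mem_erase, Finset.mem_Icc, abs_le, and_comm]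
  rw [h1, Finset.card_erase_of_mem (by rw [Finset.mem_Icc]; omega), Int.card_Icc]
  omega

theorem one_H (gsu : GsuStmt) (ths : ThsStmt) (N Z : ℕ) (hN : 1 ≤ N)
    (hexp : 8 * (N : ℝ) ≤ Real.exp (Real.pi * (Z : ℝ) ^ 2)) (x : ℝ) :
    ‖th N x‖ ^ 2 ≤ 16 * (N : ℝ) + ∑ d ∈ Hs (Z * N), kn N (2 * x * (d : ℝ)) := by
  classical
  obtain ⟨hs, hle⟩ := ths N x hN
  have hN' : (0 : ℝ) < N := by exact_mod_cast hN
  obtain ⟨g1, g2⟩ := gsu N Real.pi 0 hN (by linarith [Real.pi_gt_three])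
  simp only [add_zero] at g1 g2
  set A : ℤ → ℝ := fun d => if d = 0 then 8 * (N : ℝ) else 0 with hA
  set B : ℤ → ℝ := fun d => if d ∈ Hs (Z * N) then kn N (2 * x * (d : ℝ)) else 0 with hB
  set D : ℤ → ℝ := fun d => Real.exp (-(Real.pi * (Z : ℝ) ^ 2)) * (8 * (N : ℝ)) *
    Real.exp (-(Real.pi * (d : ℝ) ^ 2 / (N : ℝ) ^ 2)) with hD
  have hsA : Summable A := summable_of_ne_finset_zero (s := {0}) (fun d hd => by
    rw [hA]
    exact if_neg (fun h => hd (Finset.mem_singleton.2 h)))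
  have hsB : Summable B := summable_of_ne_finset_zero (s := Hs (Z * N)) (fun d hd => by
    rw [hB]
    exact if_neg hd)
  have hsD : Summable D := g1.mul_left _
  have hA0 : ∀ d, 0 ≤ A d := by
    intro d
    simp only [hA]
    split_ifs <;> positivity
  have hB0 : ∀ d, 0 ≤ B d := by
    intro d
    simp only [hB]
    split_ifs
    · exact kn_nonneg _ _
    · exact le_rfl
  have hD0 : ∀ d, 0 ≤ D d := by
    intro d
    simp only [hD]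
    positivity
  have hpt : ∀ d : ℤ, Real.exp (-(2 * Real.pi * (d : ℝ) ^ 2 / (N : ℝ) ^ 2)) *
      kn N (2 * x * (d : ℝ)) ≤ A d + B d + D d := by
    intro d
    have he : Real.exp (-(2 * Real.pi * (d : ℝ) ^ 2 / (N : ℝ) ^ 2)) ≤ 1 := by
      rw [Real.exp_le_one_iff, neg_nonpos]
      positivity
    have h1 : Real.exp (-(2 * Real.pi * (d : ℝ) ^ 2 / (N : ℝ) ^ 2)) * kn N (2 * x * (d : ℝ)) ≤
        kn N (2 * x * (d : ℝ)) := mul_le_of_le_one_left (kn_nonneg _ _) he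
    by_cases hd0 : d = 0
    · have h2 : A d = 8 * (N : ℝ) := if_pos hd0
      linarith [kn_le N hN (2 * x * (d : ℝ)), hB0 d, hD0 d]
    by_cases hd : d ∈ Hs (Z * N)
    · have h2 : B d = kn N (2 * x * (d : ℝ)) := if_pos hd
      linarith [hA0 d, hD0 d]
    · have h2 : ((Z * N : ℕ) : ℤ) < |d| := by
        by_contra hcon
        exact hd ((mem_Hs _ _).2 ⟨not_lt.1 hcon, hd0⟩)
      have h3 : (Z : ℝ) * (N : ℝ) ≤ |(d : ℝ)| := by
        have h4 : (((Z * N : ℕ) : ℤ) : ℝ) < ((|d| : ℤ) : ℝ) := Int.cast_lt.2 h2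
        push_cast at h4
        exact h4.le
      have h4 : ((Z : ℝ) * (N : ℝ)) ^ 2 ≤ (d : ℝ) ^ 2 := by
        rw [← sq_abs (d : ℝ)]
        exact pow_le_pow_left₀ (by positivity) h3 2
      have h5 : (Z : ℝ) ^ 2 ≤ (d : ℝ) ^ 2 / (N : ℝ) ^ 2 := by
        rw [le_div_iff₀ (by positivity), ← mul_pow]
        exact h4
      have h6 : Real.exp (-(2 * Real.pi * (d : ℝ) ^ 2 / (N : ℝ) ^ 2)) ≤
          Real.exp (-(Real.pi * (Z : ℝ) ^ 2)) *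
            Real.exp (-(Real.pi * (d : ℝ) ^ 2 / (N : ℝ) ^ 2)) := by
        rw [← Real.exp_add]
        apply Real.exp_le_exp.2
        have h7 : Real.pi * (Z : ℝ) ^ 2 ≤ Real.pi * ((d : ℝ) ^ 2 / (N : ℝ) ^ 2) :=
          mul_le_mul_of_nonneg_left h5 Real.pi_pos.le
        have h8 : 2 * Real.pi * (d : ℝ) ^ 2 / (N : ℝ) ^ 2 =
            2 * (Real.pi * ((d : ℝ) ^ 2 / (N : ℝ) ^ 2)) := by ring
        have h9 : Real.pi * (d : ℝ) ^ 2 / (N : ℝ) ^ 2 =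
            Real.pi * ((d : ℝ) ^ 2 / (N : ℝ) ^ 2) := by ring
        rw [h8, h9]
        linarith
      have h7 : Real.exp (-(2 * Real.pi * (d : ℝ) ^ 2 / (N : ℝ) ^ 2)) *
          kn N (2 * x * (d : ℝ)) ≤ D d := by
        calc _ ≤ (Real.exp (-(Real.pi * (Z : ℝ) ^ 2)) *
            Real.exp (-(Real.pi * (d : ℝ) ^ 2 / (N : ℝ) ^ 2))) * (8 * (N : ℝ)) :=
              mul_le_mul h6 (kn_le N hN _) (kn_nonneg _ _) (by positivity)
          _ = D d := by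
              simp only [hD]
              ring
      linarith [hA0 d, hB0 d]
  have hsum := hs.tsum_le_tsum hpt ((hsA.add hsB).add hsD)
  rw [(hsA.add hsB).tsum_add hsD, hsA.tsum_add hsB] at hsum
  have tA : ∑' d, A d = 8 * (N : ℝ) := tsum_ite_eq 0 _
  have tB : ∑' d, B d = ∑ d ∈ Hs (Z * N), kn N (2 * x * (d : ℝ)) := by
    rw [tsum_eq_sum (s := Hs (Z * N)) (fun d hd => if_neg hd)]
    exact Finset.sum_congr rfl fun d hd => if_pos hd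
  have tD : ∑' d, D d ≤ 8 * (N : ℝ) := by
    simp only [hD]
    rw [tsum_mul_left]
    have h1 : Real.exp (-(Real.pi * (Z : ℝ) ^ 2)) * (8 * (N : ℝ)) ≤ 1 := by
      rw [Real.exp_neg, inv_mul_le_iff₀ (Real.exp_pos _), mul_one]
      exact hexp
    calc _ ≤ Real.exp (-(Real.pi * (Z : ℝ) ^ 2)) * (8 * (N : ℝ)) * (8 * (N : ℝ)) :=
          mul_le_mul_of_nonneg_left g2 (by positivity)
      _ ≤ 1 * (8 * (N : ℝ)) := mul_le_mul_of_nonneg_right h1 (by positivity)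
      _ = 8 * (N : ℝ) := one_mul _
  linarith

theorem shd_gen (n : ℕ) (gsu : GsuStmt) (ths : ThsStmt) : ∃ Z₀ : ℕ, ∀ Z : ℕ, Z₀ ≤ Z → ∀ N : ℕ,
    Z ^ n ≤ N → N ≤ 2 * Z ^ n → ∀ (X : ℕ) (y : ℝ),
    ∑ H ∈ Hs X, ‖th N (y * (H : ℝ))‖ ^ 2 ≤ 32 * (N : ℝ) * (X : ℝ) +
      ∑ H ∈ Hs X, ∑ d ∈ Hs (Z * N), kn N (2 * y * ((H : ℝ) * (d : ℝ))) := by
  obtain ⟨Z₀, hZ1, hZ₀⟩ := exp_beats n
  refine ⟨Z₀, fun Z hZ N hN1 hN2 X y => ?_⟩
  have hZpos : 1 ≤ Z := le_trans hZ1 hZ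
  have hN : 1 ≤ N := le_trans (Nat.one_le_pow _ _ hZpos) hN1
  have hexp : 8 * (N : ℝ) ≤ Real.exp (Real.pi * (Z : ℝ) ^ 2) := by
    have h1 : (N : ℝ) ≤ 2 * (Z : ℝ) ^ n := by exact_mod_cast hN2
    linarith [hZ₀ Z hZ]
  have h1 : ∀ H ∈ Hs X, ‖th N (y * (H : ℝ))‖ ^ 2 ≤ 16 * (N : ℝ) +
      ∑ d ∈ Hs (Z * N), kn N (2 * y * ((H : ℝ) * (d : ℝ))) := by
    intro H _
    have h2 := one_H gsu ths N Z hN hexp (y * (H : ℝ))
    have h3 : ∑ d ∈ Hs (Z * N), kn N (2 * (y * (H : ℝ)) * (d : ℝ)) =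
        ∑ d ∈ Hs (Z * N), kn N (2 * y * ((H : ℝ) * (d : ℝ))) := by
      refine Finset.sum_congr rfl fun d _ => ?_
      rw [show 2 * (y * (H : ℝ)) * (d : ℝ) = 2 * y * ((H : ℝ) * (d : ℝ)) by ring]
    rwa [h3] at h2
  refine (Finset.sum_le_sum h1).trans ?_
  rw [Finset.sum_add_distrib, Finset.sum_const, card_Hs, nsmul_eq_mul]
  push_cast
  have h4 : (2 : ℝ) * (X : ℝ) * (16 * (N : ℝ)) = 32 * (N : ℝ) * (X : ℝ) := by ring
  rw [h4]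

theorem shd (gsu : GsuStmt) (ths : ThsStmt) : ShdStmt := shd_gen 64000 gsu ths

end Pool.Agent.K4W.H95
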