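import Mathlib
import Pool.Agent.K4W.StmtsU

set_option autoImplicit false

/-! Row UCU of the squad K4W: cutting off the Gaussian weight. -/

namespace Pool.Agent.K4W.H95

open Pool.Agent.Helper69_Weyl (ee W abel_bound)
open Finset

theorem exp_pi_le : Real.exp Real.pi ≤ 55 := by
  have h1 : Real.exp Real.pi ≤ Real.exp 4 := Real.exp_le_exp.2 Real.pi_le_four
  have h2 : Real.exp 4 = Real.exp 1 ^ 4 := by
    rw [← Real.exp_nat_mul]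
    norm_num
  have h3 := Real.exp_one_lt_d9
  have h4 : Real.exp 1 ^ 4 ≤ 2.7182818286 ^ 4 := pow_le_pow_left₀ (Real.exp_pos 1).le h3.le 4
  rw [h2] at h1
  refine h1.trans (h4.trans (by norm_num))

/-- the inverse weight -/
noncomputable def wt (N n : ℕ) : ℝ := Real.exp (Real.pi * (n : ℝ) ^ 2 / (N : ℝ) ^ 2)

theorem wt_mono (N : ℕ) {m n : ℕ} (h : m ≤ n) : wt N m ≤ wt N n := by
  unfold wt
  apply Real.exp_le_exp.2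
  have h1 : (m : ℝ) ≤ (n : ℝ) := by exact_mod_cast h
  have h2 : (m : ℝ) ^ 2 ≤ (n : ℝ) ^ 2 := pow_le_pow_left₀ (Nat.cast_nonneg m) h1 2
  have h3 := Real.pi_pos
  exact div_le_div_of_nonneg_right (mul_le_mul_of_nonneg_left h2 h3.le) (sq_nonneg _)

theorem wt_self (N : ℕ) (hN : 1 ≤ N) : wt N N ≤ 55 := by
  unfold wt
  have h1 : (N : ℝ) ^ 2 ≠ 0 := by
    have : (N : ℝ) ≠ 0 := by exact_mod_cast (by omega : N ≠ 0)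
    positivity
  rw [mul_div_assoc, div_self h1, mul_one]
  exact exp_pi_le

theorem W_eq (N : ℕ) (t ξ : ℝ) :
    W 4 N t ξ = ∑ n ∈ Icc 1 N, f N t ξ (n : ℤ) * ((wt N n : ℝ) : ℂ) := by
  unfold W
  apply Finset.sum_congr rfl
  intro n _
  unfold f ga wt
  have h1 : Real.exp (-(Real.pi * (((n : ℤ) : ℝ)) ^ 2 / (N : ℝ) ^ 2)) *
      Real.exp (Real.pi * (n : ℝ) ^ 2 / (N : ℝ) ^ 2) = 1 := by
    rw [← Real.exp_add]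
    push_cast
    rw [neg_add_cancel, Real.exp_zero]
  have h2 : ((Real.exp (-(Real.pi * (((n : ℤ) : ℝ)) ^ 2 / (N : ℝ) ^ 2)) : ℝ) : ℂ) *
      ((Real.exp (Real.pi * (n : ℝ) ^ 2 / (N : ℝ) ^ 2) : ℝ) : ℂ) = 1 := by
    rw [← Complex.ofReal_mul, h1, Complex.ofReal_one]
  rw [mul_right_comm, h2, one_mul]
  push_cast
  rfl

theorem var_le (N : ℕ) (hN : 1 ≤ N) :
    ‖((wt N N : ℝ) : ℂ)‖ + ∑ m ∈ Ico 1 N, ‖((wt N (m + 1) : ℝ) : ℂ) - ((wt N m : ℝ) : ℂ)‖ ≤ 110 := by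
  have h1 : ∀ m ∈ Ico 1 N, ‖((wt N (m + 1) : ℝ) : ℂ) - ((wt N m : ℝ) : ℂ)‖ =
      wt N (m + 1) - wt N m := by
    intro m _
    rw [← Complex.ofReal_sub, Complex.norm_real, Real.norm_eq_abs, abs_of_nonneg]
    exact sub_nonneg.2 (wt_mono N (Nat.le_succ m))
  have h0 : 0 ≤ wt N N := (Real.exp_pos _).le
  rw [Finset.sum_congr rfl h1, Finset.sum_Ico_sub (fun m => wt N m) hN, Complex.norm_real,
    Real.norm_eq_abs, abs_of_nonneg h0]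
  have h2 := wt_self N hN
  have h3 : 0 ≤ wt N 1 := (Real.exp_pos _).le
  linarith

theorem pow_four_le (x : ℝ) : (x + 1) ^ 4 ≤ 8 * (x ^ 4 + 1) := by
  have h1 : (x + 1) ^ 2 ≤ 2 * (x ^ 2 + 1) := by nlinarith [sq_nonneg (x - 1)]
  have h2 : ((x + 1) ^ 2) ^ 2 ≤ (2 * (x ^ 2 + 1)) ^ 2 := pow_le_pow_left₀ (sq_nonneg _) h1 2
  have h3 : (x ^ 2 + 1) ^ 2 ≤ 2 * (x ^ 4 + 1) := by nlinarith [sq_nonneg (x ^ 2 - 1)]
  calc (x + 1) ^ 4 = ((x + 1) ^ 2) ^ 2 := by ring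
    _ ≤ (2 * (x ^ 2 + 1)) ^ 2 := h2
    _ = 4 * (x ^ 2 + 1) ^ 2 := by ring
    _ ≤ 4 * (2 * (x ^ 4 + 1)) := by linarith
    _ = 8 * (x ^ 4 + 1) := by ring

theorem core (upt : UptStmt) (Z N : ℕ) (t ξ B : ℝ) (hZ : 100 ≤ Z) (hZN : Z ≤ N)
    (_hB : 0 ≤ B) (h : ∀ ξ' : ℝ, ‖∑' x : ℤ, f N t ξ' x‖ ≤ B)
    (u1 : 10 ^ 9 * (N : ℝ) ^ 4 * Real.exp (-((Z : ℝ) ^ 2 / 8)) ≤ 1)
    (u2 : 8 * (110 * (2 + Real.log (4 * (Z : ℝ) * (N : ℝ)))) ^ 4 ≤ (Z : ℝ) ^ 2) :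
    ‖W 4 N t ξ‖ ^ 4 ≤ (Z : ℝ) ^ 2 * (B ^ 4 + 1) := by
  have hN : 1 ≤ N := by omega
  have hZR : (100 : ℝ) ≤ (Z : ℝ) := by exact_mod_cast hZ
  have hZNR : (Z : ℝ) ≤ (N : ℝ) := by exact_mod_cast hZN
  have hNR : (100 : ℝ) ≤ (N : ℝ) := hZR.trans hZNR
  have hlog : 0 ≤ Real.log (4 * (Z : ℝ) * (N : ℝ)) := by
    apply Real.log_nonneg
    nlinarith
  set Lg : ℝ := 2 + Real.log (4 * (Z : ℝ) * (N : ℝ)) with hLg
  have hLg2 : 2 ≤ Lg := by linarith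
  have hw : ‖W 4 N t ξ‖ ≤
      (Lg * (B + 400 * (N : ℝ) * Real.exp (-(Real.pi * (Z : ℝ) ^ 2 / 2)))) * 110 := by
    rw [W_eq]
    apply abel_bound (fun n : ℕ => f N t ξ (n : ℤ)) (fun n : ℕ => ((wt N n : ℝ) : ℂ)) N _ 110
    · intro m hm
      exact upt Z N m t ξ B (by omega) hN hm h
    · exact var_le N hN
  have hexp : Real.exp (-(Real.pi * (Z : ℝ) ^ 2 / 2)) ≤ Real.exp (-((Z : ℝ) ^ 2 / 8)) := by
    apply Real.exp_le_exp.2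
    have h1 := Real.pi_gt_three
    nlinarith [sq_nonneg (Z : ℝ)]
  have hK0 : 0 ≤ 110 * Lg := by linarith
  have hKZ : 110 * Lg ≤ (N : ℝ) := by
    have h1 : (110 * Lg) ^ 2 ≤ (Z : ℝ) ^ 2 := by
      have h2 : 1 ≤ (110 * Lg) ^ 2 := by
        have : (1 : ℝ) ≤ 110 * Lg := by linarith
        nlinarith
      have h3 : (110 * Lg) ^ 4 = (110 * Lg) ^ 2 * (110 * Lg) ^ 2 := by ring
      nlinarith [sq_nonneg ((110 * Lg) ^ 2)]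
    have h2 : 110 * Lg ≤ (Z : ℝ) := le_of_sq_le_sq h1 (by linarith)
    exact h2.trans hZNR
  have htail : 110 * Lg * (400 * (N : ℝ) * Real.exp (-(Real.pi * (Z : ℝ) ^ 2 / 2))) ≤ 1 := by
    have hE : 0 < Real.exp (-((Z : ℝ) ^ 2 / 8)) := Real.exp_pos _
    calc 110 * Lg * (400 * (N : ℝ) * Real.exp (-(Real.pi * (Z : ℝ) ^ 2 / 2)))
        ≤ (N : ℝ) * (400 * (N : ℝ) * Real.exp (-((Z : ℝ) ^ 2 / 8))) := by
          apply mul_le_mul hKZ _ (by positivity) (by positivity)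
          exact mul_le_mul_of_nonneg_left hexp (by positivity)
      _ = (400 * (N : ℝ) ^ 2) * Real.exp (-((Z : ℝ) ^ 2 / 8)) := by ring
      _ ≤ (10 ^ 9 * (N : ℝ) ^ 4) * Real.exp (-((Z : ℝ) ^ 2 / 8)) := by
          apply mul_le_mul_of_nonneg_right _ hE.le
          have h1 : (1 : ℝ) ≤ (N : ℝ) ^ 2 := by nlinarith
          have h2 : (N : ℝ) ^ 4 = (N : ℝ) ^ 2 * (N : ℝ) ^ 2 := by ring
          rw [h2]
          nlinarith [mul_nonneg (sq_nonneg (N : ℝ)) (sub_nonneg.2 h1)]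
      _ ≤ 1 := u1
  have hfin : ‖W 4 N t ξ‖ ≤ 110 * Lg * B + 1 := by
    refine hw.trans ?_
    have e : (Lg * (B + 400 * (N : ℝ) * Real.exp (-(Real.pi * (Z : ℝ) ^ 2 / 2)))) * 110 =
        110 * Lg * B + 110 * Lg * (400 * (N : ℝ) * Real.exp (-(Real.pi * (Z : ℝ) ^ 2 / 2))) := by
      ring
    rw [e]
    linarith
  calc ‖W 4 N t ξ‖ ^ 4 ≤ (110 * Lg * B + 1) ^ 4 := pow_le_pow_left₀ (norm_nonneg _) hfin 4
    _ ≤ 8 * ((110 * Lg * B) ^ 4 + 1) := pow_four_le _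
    _ = (8 * (110 * Lg) ^ 4) * B ^ 4 + 8 := by ring
    _ ≤ (Z : ℝ) ^ 2 * B ^ 4 + (Z : ℝ) ^ 2 := by
        apply add_le_add
        · exact mul_le_mul_of_nonneg_right u2 (by positivity)
        · nlinarith
    _ = (Z : ℝ) ^ 2 * (B ^ 4 + 1) := by ring

theorem self_le_pow (Z n : ℕ) (hn : 1 ≤ n) : Z ≤ Z ^ n :=
  Nat.le_self_pow (by omega) Z

theorem ucu_gen (n : ℕ) (hn : 1 ≤ n) (upt : UptStmt)
    (unm : ∃ Z₀ : ℕ, 100 ≤ Z₀ ∧ ∀ Z : ℕ, Z₀ ≤ Z → ∀ N : ℕ, 1 ≤ N → N ≤ 2 * Z ^ n →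
      10 ^ 9 * (N : ℝ) ^ 4 * Real.exp (-((Z : ℝ) ^ 2 / 8)) ≤ 1 ∧
        8 * (110 * (2 + Real.log (4 * (Z : ℝ) * (N : ℝ)))) ^ 4 ≤ (Z : ℝ) ^ 2) :
    ∃ Z₀ : ℕ, ∀ Z : ℕ, Z₀ ≤ Z → ∀ (N : ℕ) (t ξ B : ℝ), Z ^ n ≤ N → N ≤ 2 * Z ^ n →
      0 ≤ B → (∀ ξ' : ℝ, ‖∑' x : ℤ, f N t ξ' x‖ ≤ B) →
        ‖W 4 N t ξ‖ ^ 4 ≤ (Z : ℝ) ^ 2 * (B ^ 4 + 1) := by
  obtain ⟨Z₀, h100, hZ₀⟩ := unm
  refine ⟨Z₀, ?_⟩
  intro Z hZ N t ξ B h1 h2 hB h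
  have hZN : Z ≤ N := (self_le_pow Z n hn).trans h1
  obtain ⟨u1, u2⟩ := hZ₀ Z hZ N (by omega) h2
  exact core upt Z N t ξ B (by omega) hZN hB h u1 u2

theorem ucu (usm : UsmStmt) (upt : UptStmt) (unm : UnmStmt) : UcuStmt := by
  have _ := usm
  exact ucu_gen 64000 (by norm_num) upt unm

end Pool.Agent.K4W.H95
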