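import Pool.Agent.K4W.StmtsW

/-!
# K4W, row WNT: Newton's identities
-/

set_option autoImplicit false

namespace Pool.Agent.K4W.H95

open Polynomial

theorem cubic (a₁ a₂ a₃ : ℂ) : ∃ ω₁ ω₂ ω₃ : ℂ, a₁ = -(ω₁ + ω₂ + ω₃) ∧
    a₂ = ω₁ * ω₂ + ω₁ * ω₃ + ω₂ * ω₃ ∧ a₃ = -(ω₁ * ω₂ * ω₃) := by
  obtain ⟨x, hx⟩ := IsAlgClosed.exists_root (C (1 : ℂ) * X ^ 3 + C a₁ * X ^ 2 + C a₂ * X + C a₃)
    (by rw [degree_cubic one_ne_zero]; norm_num)
  rw [IsRoot.def] at hx
  simp only [eval_add, eval_mul, eval_C, eval_pow, eval_X, one_mul] at hx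
  obtain ⟨y, hy⟩ := IsAlgClosed.exists_root
    (C (1 : ℂ) * X ^ 2 + C (a₁ + x) * X + C (a₂ + x * (a₁ + x)))
    (by rw [degree_quadratic one_ne_zero]; norm_num)
  rw [IsRoot.def] at hy
  simp only [eval_add, eval_mul, eval_C, eval_pow, eval_X, one_mul] at hy
  refine ⟨x, y, -(a₁ + x) - y, by ring, ?_, ?_⟩
  · linear_combination hy
  · linear_combination hx - x * hy

theorem wnt : WntStmt := by
  intro a₁ a₂ a₃ S h1 h2 h3 h4
  obtain ⟨x, y, z, e1, e2, e3⟩ := cubic a₁ a₂ a₃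
  refine ⟨x, y, z, ?_⟩
  intro n
  induction n using Nat.strong_induction_on with
  | _ n ih =>
    intro hn
    rcases Nat.lt_or_ge n 4 with h | h
    · rcases (by omega : n = 1 ∨ n = 2 ∨ n = 3) with rfl | rfl | rfl
      · rw [h1, e1]
        ring
      · rw [h2, h1, e1, e2]
        ring
      · rw [h3, h2, h1, e1, e2, e3]
        ring
    · obtain ⟨m, rfl⟩ : ∃ m, n = m + 4 := ⟨n - 4, by omega⟩
      rw [h4 (m + 4) (by omega), ih (m + 4 - 1) (by omega) (by omega),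
        ih (m + 4 - 2) (by omega) (by omega), ih (m + 4 - 3) (by omega) (by omega), e1, e2, e3]
      rw [show m + 4 - 1 = m + 3 by omega, show m + 4 - 2 = m + 2 by omega,
        show m + 4 - 3 = m + 1 by omega]
      ring

end Pool.Agent.K4W.H95
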